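import Pool.Agent.P.MP_441ee1_co.Removal

namespace Pool.Agent.P.MP_441ee1_co

open Finset

variable {V ι : Type} [DecidableEq V] [DecidableEq ι] {N : ι → V → Finset V}
  {W : Finset V} {S : Finset ι} {r : ι → ℕ}

omit [DecidableEq V] in
theorem outB_mono {T T' : Finset ι} (hT : T ⊆ T') (v : V) : outB W N T v ⊆ outB W N T' v :=
  fun _ ha => mem_outB.2 ⟨(mem_outB.1 ha).1, (mem_outB.1 ha).2.mono hT⟩

theorem Sys.growth (h : Sys W S N r) {T U : Finset ι} (hU : U ⊆ S)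
    (hUT : Disjoint U T) {v : V} (hv : v ∈ W) :
    ∑ c ∈ U, (#(outB W N T v) + r c) ≤
      ∑ c ∈ U, #(outB W N (insert c T) v) + 2 * #(outB W N T v) := by
  set Y := outB W N T v with hY
  have hYW : Y ⊆ W := fun a ha => (mem_outB.1 ha).1
  have hYne : Y.Nonempty := ⟨v, mem_outB.2 ⟨hv, .inl rfl⟩⟩
  choose y hy hym using fun c : ι => exists_min_image Y (fun y => #(N c y ∩ Y)) hYne
  have hs : Sys Y U (fun c y => N c y ∩ Y) (fun c => #(N c (y c) ∩ Y)) :=
    ⟨fun _ _ _ _ => inter_subset_right, fun c _ u hu => hym c u hu, fun a ha hr =>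
      h.acyc a (hYW ha) ((hr.of_subset fun _ _ => inter_subset_left).mono hU)⟩
  refine le_trans ?_ (Nat.add_le_add_left (hs.two' hYne) _)
  rw [← sum_add_distrib]
  refine sum_le_sum fun c hc => ?_
  have h1 : N c (y c) ∪ Y ⊆ outB W N (insert c T) v := by
    refine union_subset (fun a ha => ?_) (outB_mono (subset_insert _ _) v)
    exact mem_outB.2 ⟨h.closed c (hU hc) _ (hYW (hy c)) ha,
      .inr ((mem_outB.1 (hy c)).2.snoc (disjoint_left.1 hUT hc) ha)⟩
  have h2 := card_le_card h1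
  have h3 := card_union_add_card_inter (N c (y c)) Y
  have h4 := h.deg c (hU hc) _ (hYW (hy c))
  omega

theorem Sys.greedy (h : Sys W S N r) (hW : W.Nonempty) {ρ : ℕ} (hρ : ∀ i ∈ S, r i ≤ ρ)
    {S' : Finset ι} (hS' : S' ⊆ S) {s η : ℝ} (hs : 0 < s) (hη : 0 ≤ η)
    (hs' : s ≤ ∑ i ∈ S', (r i : ℝ)) (hsη : 2 * (s + ρ) ≤ η * (∑ i ∈ S', (r i : ℝ) - s)) :
    ∃ T ⊆ S', s ≤ ∑ i ∈ T, (r i : ℝ) ∧
      #W * ((∑ i ∈ T, (r i : ℝ)) * (1 - η)) ≤ ∑ v ∈ W, (#(outB W N T v) : ℝ) := by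
  classical
  have hn : (0 : ℝ) < #W := by exact_mod_cast card_pos.2 hW
  let B : Finset ι → ℝ := fun T => ∑ v ∈ W, (#(outB W N T v) : ℝ)
  let σ : Finset ι → ℝ := fun T => ∑ i ∈ T, (r i : ℝ)
  have hσ0 : ∀ T, 0 ≤ σ T := fun T => sum_nonneg fun _ _ => Nat.cast_nonneg _
  let P : Finset (Finset ι) := S'.powerset.filter fun T =>
    σ T < s + ρ ∧ #W * (σ T * (1 - η)) ≤ B T
  have hP : P.Nonempty := ⟨∅, by
    simp only [P, σ, B, mem_filter, mem_powerset, empty_subset, sum_empty, true_and, zero_mul,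
      mul_zero]
    exact ⟨by positivity, sum_nonneg fun _ _ => Nat.cast_nonneg _⟩⟩
  obtain ⟨T, hT, hTm⟩ := exists_max_image P card hP
  simp only [P, mem_filter, mem_powerset] at hT
  obtain ⟨hTS, hT1, hT2⟩ := hT
  refine ⟨T, hTS, ?_, hT2⟩
  by_contra hcon
  have hcon : σ T < s := lt_of_not_ge hcon
  have hsplit : σ (S' \ T) + σ T = σ S' := sum_sdiff hTS
  have hfail : ∀ c ∈ S' \ T, B (insert c T) < B T + #W * (r c * (1 - η)) ∧
      B (insert c T) < #W * (s + ρ) := by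
    intro c hc
    have hcT := (mem_sdiff.1 hc).2
    have hσ : σ (insert c T) = r c + σ T := sum_insert hcT
    have hrc : (r c : ℝ) ≤ ρ := by exact_mod_cast hρ c (hS' (mem_sdiff.1 hc).1)
    have hlt : B (insert c T) < #W * (σ (insert c T) * (1 - η)) := by
      by_contra hge
      have := hTm (insert c T) (by
        simp only [P, mem_filter, mem_powerset]
        exact ⟨insert_subset (mem_sdiff.1 hc).1 hTS, by linarith, le_of_not_gt hge⟩)
      rw [card_insert_of_notMem hcT] at this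
      omega
    constructor
    · rw [hσ] at hlt
      nlinarith
    · refine hlt.trans_le (mul_le_mul_of_nonneg_left ?_ hn.le)
      have := hσ0 (insert c T)
      nlinarith
  have hne : (S' \ T).Nonempty := by
    rw [nonempty_iff_ne_empty]
    intro he
    have : σ (S' \ T) = 0 := by rw [he]; exact sum_empty
    have : σ S' = ∑ i ∈ S', (r i : ℝ) := rfl
    linarith
  have hBT : B T < #W * (s + ρ) := by
    obtain ⟨c, hc⟩ := hne
    refine lt_of_le_of_lt ?_ (hfail c hc).2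
    exact sum_le_sum fun v _ => by
      exact_mod_cast card_le_card (outB_mono (subset_insert _ _) v)
  have hg : ∑ c ∈ S' \ T, (B T + #W * r c) ≤ ∑ c ∈ S' \ T, B (insert c T) + 2 * B T := by
    have e1 : ∑ c ∈ S' \ T, (B T + #W * r c) =
        ∑ v ∈ W, ∑ c ∈ S' \ T, ((#(outB W N T v) : ℝ) + r c) := by
      rw [sum_comm]
      refine sum_congr rfl fun c _ => ?_
      rw [sum_add_distrib, sum_const, nsmul_eq_mul]
    have e2 : ∑ c ∈ S' \ T, B (insert c T) + 2 * B T =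
        ∑ v ∈ W, (∑ c ∈ S' \ T, (#(outB W N (insert c T) v) : ℝ) + 2 * #(outB W N T v)) := by
      rw [sum_add_distrib, sum_comm, ← mul_sum]
    rw [e1, e2]
    refine sum_le_sum fun v hv => ?_
    exact_mod_cast h.growth (sdiff_subset.trans hS') sdiff_disjoint hv
  have hlt := sum_lt_sum_of_nonempty hne fun c hc => (hfail c hc).1
  rw [sum_add_distrib, ← mul_sum] at hg
  rw [sum_add_distrib, ← mul_sum, ← sum_mul] at hlt
  have e3 : ∑ c ∈ S' \ T, (r c : ℝ) = σ (S' \ T) := rfl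
  have e4 : ∑ i ∈ S', (r i : ℝ) = σ S' := rfl
  rw [e3] at hg hlt
  rw [e4] at hsη
  have h5 : η * (σ S' - s) ≤ η * σ (S' \ T) := mul_le_mul_of_nonneg_left (by linarith) hη
  have h6 : #W * (η * σ (S' \ T)) < #W * (2 * (s + ρ)) := by nlinarith
  have h7 := lt_of_mul_lt_mul_left h6 hn.le
  linarith

theorem num_aux {e : ℝ} (h0 : 0 < e) (h1 : e < 1 / 6) :
    1 + e * (10 / 7) < (1 - (7 / 5 * e + 2 * e ^ 2) / (1 + 5 * e)) * (1 + 3 * e) := by
  have h5 : 0 < 1 + 5 * e := by linarith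
  rw [one_sub_div h5.ne', div_mul_eq_mul_div, lt_div_iff₀ h5]
  nlinarith [mul_pos h0 h0, mul_pos (mul_pos h0 h0) (sub_pos.2 h1)]

theorem Sys.asym (h : Sys W S N r) (hW : W.Nonempty) {ρ : ℕ} (hρ : ∀ i ∈ S, r i ≤ ρ) :
    ∑ i ∈ S, (r i : ℝ) < #W + 6 * √(#W * ρ) := by
  induction S using Finset.strongInduction generalizing W N with
  | H S ih =>
  refine lt_of_not_ge fun hcon => ?_
  have hn : (0 : ℝ) < #W := by exact_mod_cast card_pos.2 hW
  set n : ℝ := (#W : ℝ) with hn'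
  have hq0 : 0 ≤ √(n * ρ) := Real.sqrt_nonneg _
  have hq2 : √(n * ρ) ^ 2 = n * ρ := Real.sq_sqrt (by positivity)
  have hS : S.Nonempty := by
    rw [nonempty_iff_ne_empty]
    rintro rfl
    simp only [sum_empty] at hcon
    linarith
  obtain ⟨d, hd, hdm⟩ := exists_max_image S r hS
  have hρ0 : (0 : ℝ) < ρ := by
    rcases Nat.eq_zero_or_pos ρ with rfl | hp
    · have : ∑ i ∈ S, (r i : ℝ) = 0 := sum_eq_zero fun i hi => by
        have := hρ i hi
        simp; omega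
      linarith
    · exact_mod_cast hp
  have hlt2 : ∑ i ∈ S, (r i : ℝ) < 2 * n := by
    have h1 := h.two hW
    have h2 : ∑ i ∈ S with r i ≠ 0, r i < ∑ i ∈ S with r i ≠ 0, (r i + 1) := by
      refine sum_lt_sum_of_nonempty ⟨d, mem_filter.2 ⟨hd, fun h0 => ?_⟩⟩ fun _ _ => Nat.lt_succ_self _
      have : ∑ i ∈ S, (r i : ℝ) = 0 := sum_eq_zero fun i hi => by
        have := hdm i hi
        simp; omega
      linarith
    rw [sum_filter_ne_zero] at h2
    rw [hn']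
    exact_mod_cast h2.trans_le h1
  obtain ⟨e, he⟩ : ∃ e, e = √(n * ρ) / n := ⟨_, rfl⟩
  have hq : √(n * ρ) = e * n := by rw [he]; field_simp
  rw [hq] at hcon hq0 hq2
  clear he hq
  have hρe : (ρ : ℝ) = e ^ 2 * n := by
    apply mul_left_cancel₀ hn.ne'
    rw [← hq2]; ring
  have he0 : 0 < e := by
    have : 0 ≤ e := by by_contra hc; nlinarith
    rcases this.eq_or_lt with rfl | hc
    · rw [hρe] at hρ0; simp at hρ0
    · exact hc
  have he6 : e < 1 / 6 := by nlinarith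
  have hrd : (r d : ℝ) ≤ ρ := by exact_mod_cast hρ d hd
  have hsum : (r d : ℝ) + ∑ i ∈ S.erase d, (r i : ℝ) = ∑ i ∈ S, (r i : ℝ) :=
    add_sum_erase S (fun i => (r i : ℝ)) hd
  have h5 : 0 < 1 + 5 * e := by linarith
  have hen : 0 < e * n := mul_pos he0 hn
  have hbig : (1 + 5 * e) * n ≤ ∑ i ∈ S.erase d, (r i : ℝ) - 7 / 10 * (e * n) := by
    nlinarith [mul_pos hen (sub_pos.2 he6)]
  have hη0 : 0 ≤ (7 / 5 * e + 2 * e ^ 2) / (1 + 5 * e) :=
    div_nonneg (by nlinarith) h5.le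
  obtain ⟨T, hT, hTs, hTB⟩ := h.greedy hW hρ (erase_subset d S) (s := 7 / 10 * (e * n))
    (η := (7 / 5 * e + 2 * e ^ 2) / (1 + 5 * e)) (by linarith) hη0
    (by nlinarith) (by
      refine le_trans (le_of_eq ?_) (mul_le_mul_of_nonneg_left hbig hη0)
      rw [hρe]; field_simp; ring)
  obtain ⟨x, hx, hxT⟩ := exists_inB hW T hTB
  have hTS : T ⊆ S := hT.trans (erase_subset _ _)
  have hdT : d ∉ T := fun hh => by simpa using hT hh
  obtain ⟨h1, N', hN'⟩ := h.removal hTS hd hdT hx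
    (fun i hi => hdm i (mem_sdiff.1 (mem_erase.1 hi).2).1)
  have hcard : (#(W \ inB W N T x) : ℝ) + #(inB W N T x) = n := by
    rw [hn']; exact_mod_cast card_sdiff_inB T x
  set m : ℝ := (#(inB W N T x) : ℝ)
  set n' : ℝ := (#(W \ inB W N T x) : ℝ)
  have hn'0 : 0 ≤ n' := Nat.cast_nonneg _
  have hm0 : 0 ≤ m := Nat.cast_nonneg _
  have hrest : ∑ i ∈ (S \ T).erase d, (r i : ℝ) ≤ n' + 6 * √(n' * ρ) := by
    rcases (W \ inB W N T x).eq_empty_or_nonempty with hE | hE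
    · rw [hE, card_empty] at h1
      have : ∑ i ∈ (S \ T).erase d, (r i : ℝ) = 0 := sum_eq_zero fun i hi => by
        have := hdm i (mem_sdiff.1 (mem_erase.1 hi).2).1
        simp; omega
      rw [this]; linarith [Real.sqrt_nonneg (n' * ρ)]
    · refine (ih _ ?_ hN' hE fun i hi => hρ i (mem_sdiff.1 (mem_erase.1 hi).2).1).le
      exact lt_of_lt_of_le (erase_ssubset (mem_sdiff.2 ⟨hd, hdT⟩)) sdiff_subset
  have hsq : √(n' * ρ) ≤ e * n - e * m / 2 := by
    refine Real.sqrt_le_iff.2 ⟨by nlinarith, ?_⟩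
    rw [hρe, show n' = n - m by linarith]
    nlinarith [sq_nonneg (e * m)]
  have hs1 : (r d : ℝ) + ∑ i ∈ (S \ T).erase d, (r i : ℝ) = ∑ i ∈ S \ T, (r i : ℝ) :=
    add_sum_erase _ (fun i => (r i : ℝ)) (mem_sdiff.2 ⟨hd, hdT⟩)
  have hs2 : ∑ i ∈ S \ T, (r i : ℝ) + ∑ i ∈ T, (r i : ℝ) = ∑ i ∈ S, (r i : ℝ) := sum_sdiff hTS
  set τ : ℝ := ∑ i ∈ T, (r i : ℝ)
  have hτ : 0 < τ := lt_of_lt_of_le (by linarith) hTs
  have hk := mul_lt_mul_of_pos_left (num_aux he0 he6) hτ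
  have hk2 := mul_le_mul_of_nonneg_right hxT (show 0 ≤ 1 + 3 * e by linarith)
  have hk3 : e ^ 2 * n ≤ τ * (e * (10 / 7)) := by nlinarith
  nlinarith

end Pool.Agent.P.MP_441ee1_co
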