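import Mathlib

namespace Pool.Agent.P.MP_441ee1_co

open Finset

variable {V ι : Type} [DecidableEq ι]

/-- `Reach N T u z`: a nonempty walk from `u` to `z` whose edges carry distinct colours of `T`. -/
inductive Reach (N : ι → V → Finset V) : Finset ι → V → V → Prop
  | one {T : Finset ι} {c : ι} {u w : V} : c ∈ T → w ∈ N c u → Reach N T u w
  | cons {T : Finset ι} {c : ι} {u w z : V} :
      c ∈ T → w ∈ N c u → Reach N (T.erase c) w z → Reach N T u z

variable {N : ι → V → Finset V}

theorem Reach.mono {T T' : Finset ι} {u z : V} (h : Reach N T u z) (hT : T ⊆ T') :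
    Reach N T' u z := by
  induction h generalizing T' with
  | one hc hw => exact .one (hT hc) hw
  | cons hc hw _ ih => exact .cons (hT hc) hw (ih (erase_subset_erase _ hT))

theorem Reach.nonempty {T : Finset ι} {u z : V} (h : Reach N T u z) : T.Nonempty := by
  cases h with
  | one hc _ => exact ⟨_, hc⟩
  | cons hc _ _ => exact ⟨_, hc⟩

theorem Reach.trans {T T' : Finset ι} {u w z : V} (h : Reach N T u w) (h' : Reach N T' w z)
    (hd : Disjoint T T') : Reach N (T ∪ T') u z := by
  induction h with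
  | @one T c u w hc hw =>
    refine .cons (mem_union_left _ hc) hw (h'.mono fun x hx => ?_)
    refine mem_erase.2 ⟨?_, mem_union_right _ hx⟩
    rintro rfl
    exact disjoint_left.1 hd hc hx
  | @cons T c u w y hc hw _ ih =>
    refine .cons (mem_union_left _ hc) hw
      ((ih h' (hd.mono_left (erase_subset _ _))).mono fun x hx => ?_)
    rcases mem_union.1 hx with hy | hy
    · exact mem_erase.2 ⟨(mem_erase.1 hy).1, mem_union_left _ (mem_erase.1 hy).2⟩
    · refine mem_erase.2 ⟨fun he => ?_, mem_union_right _ hy⟩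
      exact disjoint_left.1 hd hc (he ▸ hy)

theorem Reach.of_subset {N' : ι → V → Finset V} {T : Finset ι} {u z : V} (h : Reach N' T u z)
    (hN : ∀ c u, N' c u ⊆ N c u) : Reach N T u z := by
  induction h with
  | one hc hw => exact .one hc (hN _ _ hw)
  | cons hc hw _ ih => exact .cons hc (hN _ _ hw) ih

theorem Reach.mem {W : Finset V} {S T : Finset ι} {u z : V} (h : Reach N T u z) (hT : T ⊆ S)
    (hW : ∀ c ∈ S, ∀ u ∈ W, N c u ⊆ W) (hu : u ∈ W) : z ∈ W := by
  induction h with
  | one hc hw => exact hW _ (hT hc) _ hu hw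
  | cons hc hw _ ih => exact ih ((erase_subset _ _).trans hT) (hW _ (hT hc) _ hu hw)

/-- possibly empty rainbow walks -/
def RE (N : ι → V → Finset V) (T : Finset ι) (u z : V) : Prop := u = z ∨ Reach N T u z

theorem Reach.transE {T T' : Finset ι} {u w z : V} (h : Reach N T u w) (h' : RE N T' w z)
    (hd : Disjoint T T') : Reach N (T ∪ T') u z := by
  rcases h' with rfl | h'
  · exact h.mono subset_union_left
  · exact h.trans h' hd

theorem RE.trans {T T' : Finset ι} {u w z : V} (h : RE N T u w) (h' : Reach N T' w z)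
    (hd : Disjoint T T') : Reach N (T ∪ T') u z := by
  rcases h with rfl | h
  · exact h'.mono subset_union_right
  · exact h.trans h' hd

theorem RE.mono {T T' : Finset ι} {u z : V} (h : RE N T u z) (hT : T ⊆ T') : RE N T' u z :=
  h.imp id fun h => h.mono hT

theorem RE.snoc {T : Finset ι} {c : ι} {u w z : V} (h : RE N T u w) (hc : c ∉ T)
    (hz : z ∈ N c w) : Reach N (insert c T) u z := by
  have := h.trans (Reach.one (mem_singleton_self c) hz) (by simpa using hc)
  exact this.mono fun x hx => by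
    rcases mem_union.1 hx with hx | hx
    · exact mem_insert_of_mem hx
    · rw [mem_singleton.1 hx]; exact mem_insert_self _ _

theorem Reach.exists_seq {T : Finset ι} {u z : V} (h : Reach N T u z) :
    ∃ k : ℕ, 1 ≤ k ∧ ∃ (p : ℕ → V) (f : ℕ → ι), p 0 = u ∧ p k = z ∧
      (∀ i < k, ∀ j < k, f i = f j → i = j) ∧ ∀ j < k, f j ∈ T ∧ p (j + 1) ∈ N (f j) (p j) := by
  induction h with
  | @one T c u w hc hw =>
    refine ⟨1, le_rfl, fun j => if j = 0 then u else w, fun _ => c, by simp, by simp,
      fun i hi j hj _ => by omega, fun j hj => ?_⟩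
    obtain rfl : j = 0 := by omega
    simpa using ⟨hc, hw⟩
  | @cons T c u w z hc hw _ ih =>
    obtain ⟨k, hk, p, f, h0, hz, hinj, hstep⟩ := ih
    refine ⟨k + 1, by omega, fun j => Nat.casesOn j u p, fun j => Nat.casesOn j c f, rfl, hz,
      ?_, ?_⟩
    · rintro (_ | i) hi (_ | j) hj hij
      · rfl
      · exact absurd hij.symm (mem_erase.1 (hstep j (by omega)).1).1
      · exact absurd hij (mem_erase.1 (hstep i (by omega)).1).1
      · rw [hinj i (by omega) j (by omega) hij]
    · rintro (_ | j) hj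
      · exact ⟨hc, by simpa [h0] using hw⟩
      · exact ⟨(mem_erase.1 (hstep j (by omega)).1).2, (hstep j (by omega)).2⟩

theorem cycle_of_reach (hloop : ∀ c u, u ∉ N c u) {T : Finset ι} {v : V} (h : Reach N T v v) :
    ∃ k : ℕ, 2 ≤ k ∧ ∃ c : Fin k → V, Function.Injective c ∧
      ∃ f : Fin k → ι, Function.Injective f ∧ ∀ j : Fin k, c (finRotate k j) ∈ N (f j) (c j) := by
  classical
  have hex : ∃ k : ℕ, 1 ≤ k ∧ ∃ (p : ℕ → V) (f : ℕ → ι), p k = p 0 ∧
      (∀ i < k, ∀ j < k, f i = f j → i = j) ∧ ∀ j < k, p (j + 1) ∈ N (f j) (p j) := by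
    obtain ⟨k, hk, p, f, h0, hz, hinj, hstep⟩ := h.exists_seq
    exact ⟨k, hk, p, f, by rw [h0, hz], hinj, fun j hj => (hstep j hj).2⟩
  obtain ⟨hk, p, f, hp, hinj, hstep⟩ := Nat.find_spec hex
  have hmin := fun m => Nat.find_min hex (m := m)
  generalize Nat.find hex = k at hk hp hinj hstep hmin
  have hlt : ∀ i j, i < j → j < k → p i ≠ p j := by
    intro i j hij hj he
    refine hmin (j - i) (by omega) ⟨by omega, fun l => p (i + l), fun l => f (i + l), ?_, ?_, ?_⟩
    · simp only [Nat.add_sub_cancel' hij.le, add_zero, he]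
    · intro a ha b hb hab
      have := hinj (i + a) (by omega) (i + b) (by omega) hab
      omega
    · intro l hl
      exact hstep (i + l) (by omega)
  have hk2 : 2 ≤ k := by
    by_contra hc
    obtain rfl : k = 1 := by omega
    have := hstep 0 (by omega)
    rw [zero_add, hp] at this
    exact hloop _ _ this
  obtain ⟨m, rfl⟩ : ∃ m, k = m + 1 := ⟨k - 1, by omega⟩
  refine ⟨m + 1, hk2, fun j => p j, fun a b hab => ?_, fun j => f j,
    fun a b hab => Fin.ext (hinj a a.2 b b.2 hab), fun j => ?_⟩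
  · rcases lt_trichotomy (a : ℕ) b with h | h | h
    · exact absurd hab (hlt _ _ h b.2)
    · exact Fin.ext h
    · exact absurd hab.symm (hlt _ _ h a.2)
  · have h1 := hstep j j.2
    have h2 : p (finRotate (m + 1) j : ℕ) = p (j + 1) := by
      rw [finRotate_apply]
      by_cases hj : j = Fin.last m
      · subst hj
        simp [hp]
      · rw [Fin.val_add_one_of_lt (Fin.lt_last_iff_ne_last.2 hj)]
    simpa only [h2] using h1

/-- A rainbow-acyclic system on the vertex set `W` with colour set `S` and degrees `r`. -/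
structure Sys (W : Finset V) (S : Finset ι) (N : ι → V → Finset V) (r : ι → ℕ) : Prop where
  closed : ∀ c ∈ S, ∀ u ∈ W, N c u ⊆ W
  deg : ∀ c ∈ S, ∀ u ∈ W, r c ≤ #(N c u)
  acyc : ∀ v ∈ W, ¬ Reach N S v v

theorem Sys.mono {W : Finset V} {S S' : Finset ι} {r : ι → ℕ} (h : Sys W S N r) (hS : S' ⊆ S) :
    Sys W S' N r :=
  ⟨fun c hc => h.closed c (hS hc), fun c hc => h.deg c (hS hc),
    fun v hv hr => h.acyc v hv (hr.mono hS)⟩

/-- the passage from the abstract setting to the edge-set formulation -/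
theorem bridge {V : Type} [Fintype V] [DecidableEq V] {t : ℕ} (E : Fin t → Finset (V × V))
    (r : Fin t → ℕ) (hloop : ∀ i, ∀ e ∈ E i, e.1 ≠ e.2)
    (hdeg : ∀ i, ∀ v : V, r i ≤ ((E i).filter (fun e => e.1 = v)).card)
    (h : ∀ N : Fin t → V → Finset V, ¬ Sys univ univ N r) :
    ∃ k : ℕ, 2 ≤ k ∧ ∃ c : Fin k → V, Function.Injective c ∧
      ∃ f : Fin k → Fin t, Function.Injective f ∧
        ∀ j : Fin k, (c j, c (finRotate k j)) ∈ E (f j) := by
  let N : Fin t → V → Finset V := fun i v => univ.filter fun w => (v, w) ∈ E i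
  by_contra hcon
  refine h N ⟨fun _ _ _ _ => subset_univ _, fun i _ v _ => (hdeg i v).trans ?_, fun v _ hv => ?_⟩
  · refine card_le_card_of_injOn Prod.snd ?_ ?_
    · rintro ⟨a, b⟩ he
      simp only [coe_filter, Set.mem_ofPred_eq] at he
      obtain ⟨he, rfl⟩ := he
      simpa [N] using he
    · rintro ⟨a, b⟩ he ⟨a', b'⟩ he' hb
      simp only [coe_filter, Set.mem_ofPred_eq] at he he' hb
      rw [he.2, he'.2, hb]
  · obtain ⟨k, hk, c, hc, f, hf, hs⟩ := cycle_of_reach (N := N)
      (fun i u hu => hloop i (u, u) (by simpa [N] using hu) rfl) hv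
    exact hcon ⟨k, hk, c, hc, f, hf, fun j => by simpa [N] using hs j⟩

end Pool.Agent.P.MP_441ee1_co
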