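import Pool.Agent.P.MP_441ee1_co.Basic

namespace Pool.Agent.P.MP_441ee1_co

open Finset

variable {V ι : Type} [DecidableEq V] [DecidableEq ι] {N : ι → V → Finset V}
  {W : Finset V} {S : Finset ι} {r : ι → ℕ}

open scoped Classical in
/-- closed in-ball -/
noncomputable def inB (W : Finset V) (N : ι → V → Finset V) (T : Finset ι) (x : V) : Finset V :=
  W.filter fun a => RE N T a x

open scoped Classical in
/-- closed out-ball -/
noncomputable def outB (W : Finset V) (N : ι → V → Finset V) (T : Finset ι) (v : V) : Finset V :=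
  W.filter fun a => RE N T v a

omit [DecidableEq V] in
theorem mem_inB {T : Finset ι} {x a : V} : a ∈ inB W N T x ↔ a ∈ W ∧ RE N T a x := by
  simp [inB]

omit [DecidableEq V] in
theorem mem_outB {T : Finset ι} {x a : V} : a ∈ outB W N T x ↔ a ∈ W ∧ RE N T x a := by
  simp [outB]

omit [DecidableEq V] in
theorem sum_inB (T : Finset ι) : ∑ x ∈ W, #(inB W N T x) = ∑ v ∈ W, #(outB W N T v) := by
  classical
  simp only [inB, outB, card_filter]
  exact sum_comm

omit [DecidableEq V] in
theorem exists_inB (hW : W.Nonempty) (T : Finset ι) {b : ℝ}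
    (hb : #W * b ≤ ∑ v ∈ W, (#(outB W N T v) : ℝ)) : ∃ x ∈ W, b ≤ #(inB W N T x) := by
  refine exists_le_of_sum_le hW ?_
  rw [sum_const, nsmul_eq_mul]
  refine hb.trans (le_of_eq ?_)
  exact_mod_cast (sum_inB (W := W) (N := N) T).symm

theorem fake_decomp {D B : Finset V} {U : Finset ι} {u z : V}
    (h : Reach (fun i u => (N i u \ D) ∪ if (N i u ∩ D).Nonempty then B else ∅) U u z) :
    Reach N U u z ∨ ∃ U₁ U₂ : Finset ι, U₁ ⊆ U ∧ U₂ ⊆ U ∧ Disjoint U₁ U₂ ∧
      ∃ a ∈ D, ∃ b ∈ B, Reach N U₁ u a ∧ RE N U₂ b z := by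
  have key : ∀ {c : ι} {u w : V},
      w ∈ (N c u \ D) ∪ (if (N c u ∩ D).Nonempty then B else ∅) →
        w ∈ N c u ∨ (w ∈ B ∧ ∃ a ∈ D, a ∈ N c u) := by
    intro c u w hw
    rcases mem_union.1 hw with hw | hw
    · exact .inl (mem_sdiff.1 hw).1
    · split_ifs at hw with hne
      · obtain ⟨a, ha⟩ := hne
        exact .inr ⟨hw, a, (mem_inter.1 ha).2, (mem_inter.1 ha).1⟩
      · simp at hw
  induction h with
  | @one T c u w hc hw =>
    rcases key hw with hw | ⟨hw, a, ha, hau⟩
    · exact .inl (.one hc hw)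
    · exact .inr ⟨{c}, ∅, by simpa, by simp, by simp, a, ha, w, hw,
        .one (mem_singleton_self c) hau, .inl rfl⟩
  | @cons T c u w z hc hw _ ih =>
    rcases key hw with hw | ⟨hw, a, ha, hau⟩
    · rcases ih with ih | ⟨U₁, U₂, h1, h2, hd, a, ha, b, hb, hr, he⟩
      · exact .inl (.cons hc hw ih)
      · refine .inr ⟨insert c U₁, U₂, insert_subset hc (h1.trans (erase_subset _ _)),
          h2.trans (erase_subset _ _), ?_, a, ha, b, hb,
          .cons (mem_insert_self _ _) hw (hr.mono fun x hx => ?_), he⟩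
        · rw [disjoint_insert_left]
          exact ⟨fun hc2 => by simpa using h2 hc2, hd⟩
        · exact mem_erase.2 ⟨(mem_erase.1 (h1 hx)).1, mem_insert_of_mem hx⟩
    · rcases ih with ih | ⟨U₁, U₂, h1, h2, hd, a', ha', b, hb, hr, he⟩
      · exact .inr ⟨{c}, T.erase c, by simpa, erase_subset _ _, by simp, a, ha, w, hw,
          .one (mem_singleton_self c) hau, .inr ih⟩
      · refine .inr ⟨{c}, U₂, by simpa, h2.trans (erase_subset _ _), ?_, a, ha, b, hb,
          .one (mem_singleton_self c) hau, he⟩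
        rw [disjoint_singleton_left]
        exact fun hc2 => by simpa using h2 hc2

theorem Sys.removal (h : Sys W S N r) {T : Finset ι} (hT : T ⊆ S) {d : ι} (hd : d ∈ S)
    (hdT : d ∉ T) {x : V} (hx : x ∈ W) (hmax : ∀ i ∈ (S \ T).erase d, r i ≤ r d) :
    r d ≤ #(W \ inB W N T x) ∧ ∃ N', Sys (W \ inB W N T x) ((S \ T).erase d) N' r := by
  have hsub : (S \ T).erase d ⊆ S := (erase_subset _ _).trans sdiff_subset
  have hB : N d x ⊆ W \ inB W N T x := by
    intro b hb
    refine mem_sdiff.2 ⟨h.closed d hd x hx hb, fun hb' => h.acyc b (mem_inB.1 hb').1 ?_⟩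
    exact ((mem_inB.1 hb').2.snoc hdT hb).mono (insert_subset hd hT)
  refine ⟨(h.deg d hd x hx).trans (card_le_card hB),
    fun i u => (N i u \ inB W N T x) ∪
      if (N i u ∩ inB W N T x).Nonempty then N d x else ∅, ?_, ?_, ?_⟩
  · intro c hc u hu
    refine union_subset (sdiff_subset_sdiff (h.closed c (hsub hc) u (mem_sdiff.1 hu).1) le_rfl) ?_
    split_ifs
    · exact hB
    · simp
  · intro c hc u hu
    split_ifs with hne
    · exact ((hmax c hc).trans (h.deg d hd x hx)).trans (card_le_card subset_union_right)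
    · rw [union_empty, sdiff_eq_self_of_disjoint (by
        rw [disjoint_iff_inter_eq_empty]; simpa using hne)]
      exact h.deg c (hsub hc) u (mem_sdiff.1 hu).1
  · intro v hv hr
    rcases fake_decomp hr with hr | ⟨U₁, U₂, h1, h2, hd', a, ha, b, hb, hr, he⟩
    · exact h.acyc v (mem_sdiff.1 hv).1 (hr.mono hsub)
    · have hU : ∀ {U : Finset ι}, U ⊆ (S \ T).erase d → Disjoint U (insert d T) := by
        intro U hU
        rw [disjoint_left]
        intro i hi hi'
        have := hU hi
        simp only [mem_erase, mem_sdiff, mem_insert] at this hi'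
        tauto
      have e1 := hr.trans ((mem_inB.1 ha).2.snoc hdT hb) (hU h1)
      have e2 := e1.transE he (by
        rw [disjoint_union_left]; exact ⟨hd', (hU h2).symm⟩)
      refine h.acyc v (mem_sdiff.1 hv).1 (e2.mono ?_)
      exact union_subset (union_subset (h1.trans hsub) (insert_subset hd hT)) (h2.trans hsub)

theorem Sys.card_outB_single (h : Sys W S N r) {c : ι} (hc : c ∈ S) {v : V} (hv : v ∈ W) :
    r c + 1 ≤ #(outB W N {c} v) := by
  have h1 : v ∉ N c v := fun hvv => h.acyc v hv (.one hc hvv)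
  have h2 : insert v (N c v) ⊆ outB W N {c} v := by
    intro a ha
    rcases mem_insert.1 ha with rfl | ha
    · exact mem_outB.2 ⟨hv, .inl rfl⟩
    · exact mem_outB.2 ⟨h.closed c hc v hv ha, .inr (.one (mem_singleton_self c) ha)⟩
  have := card_le_card h2
  rw [card_insert_of_notMem h1] at this
  have := h.deg c hc v hv
  omega

theorem card_sdiff_inB (T : Finset ι) (x : V) :
    #(W \ inB W N T x) + #(inB W N T x) = #W :=
  card_sdiff_add_card_eq_card (fun _ ha => (mem_inB.1 ha).1)

theorem Sys.two_pos (h : Sys W S N r) (hW : W.Nonempty) (hr : ∀ i ∈ S, 1 ≤ r i) :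
    ∑ i ∈ S, (r i + 1) ≤ 2 * #W := by
  induction S using Finset.strongInduction generalizing W N with
  | H S ih =>
  rcases S.eq_empty_or_nonempty with rfl | hS
  · simp
  obtain ⟨c, hc, hcm⟩ := exists_max_image S r hS
  obtain ⟨x, hx, hxc⟩ := exists_inB (N := N) hW {c} (b := r c + 1) (by
    rw [← nsmul_eq_mul, ← sum_const]
    exact sum_le_sum fun v hv => by exact_mod_cast h.card_outB_single hc hv)
  have hxc' : r c + 1 ≤ #(inB W N {c} x) := by exact_mod_cast hxc
  have hcard := card_sdiff_inB (W := W) (N := N) {c} x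
  rw [← add_sum_erase S _ hc]
  rcases (S.erase c).eq_empty_or_nonempty with he | hS'
  · rw [he, sum_empty]; omega
  obtain ⟨d, hd, hdm⟩ := exists_max_image (S.erase c) r hS'
  have hdS := (mem_erase.1 hd).2
  obtain ⟨h1, N', hN'⟩ := h.removal (T := {c}) (by simpa) hdS
    (by simpa using (mem_erase.1 hd).1) hx (fun i hi => hdm i (by
      rw [sdiff_singleton_eq_erase] at hi; exact (erase_subset _ _) hi))
  rw [sdiff_singleton_eq_erase] at hN'
  have h2 := ih ((S.erase c).erase d)
    (lt_of_le_of_lt (erase_subset _ _) (erase_ssubset hc)) hN'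
    (card_pos.1 (lt_of_lt_of_le (hr d hdS) h1))
    (fun i hi => hr i ((erase_subset _ _) ((erase_subset _ _) hi)))
  rw [← add_sum_erase _ _ hd]
  have := hcm d hdS
  omega

theorem Sys.two (h : Sys W S N r) (hW : W.Nonempty) :
    ∑ i ∈ S with r i ≠ 0, (r i + 1) ≤ 2 * #W :=
  (h.mono (filter_subset _ _)).two_pos hW fun _ hi => Nat.one_le_iff_ne_zero.2 (mem_filter.1 hi).2

theorem Sys.two' (h : Sys W S N r) (hW : W.Nonempty) : ∑ i ∈ S, r i ≤ 2 * #W := by
  rw [← sum_filter_ne_zero]
  exact (sum_le_sum fun i _ => Nat.le_succ _).trans (h.two hW)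

end Pool.Agent.P.MP_441ee1_co
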