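import Pool.Agent.P.MP_441ee1_co.Removal

namespace Pool.Agent.P.MP_441ee1_co

open Finset

variable {ι : Type} [DecidableEq ι] {S : Finset ι} {r : ι → ℕ}

section
variable {V : Type} [DecidableEq V] {N : ι → V → Finset V} {W : Finset V}

omit [DecidableEq V] in
theorem RE.transE {T T' : Finset ι} {u w z : V} (h : RE N T u w) (h' : RE N T' w z)
    (hd : Disjoint T T') : RE N (T ∪ T') u z := by
  rcases h' with rfl | h'
  · exact h.mono subset_union_left
  · exact .inr (h.trans h' hd)

omit [DecidableEq V] in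
theorem Reach.congr_start {T : Finset ι} {u u' z : V} (h : Reach N T u z)
    (hu : ∀ i, N i u = N i u') : Reach N T u' z := by
  cases h with
  | one hc hw => exact .one hc (hu _ ▸ hw)
  | cons hc hw h => exact .cons hc (hu _ ▸ hw) h

theorem Sys.two_ball (h : Sys W S N r) {S₁ S₂ : Finset ι} (h1 : S₁ ⊆ S) (h2 : S₂ ⊆ S)
    (hd : Disjoint S₁ S₂) {a : V} {W₀ : Finset V} (hW₀ : outB W N S₁ a ∪ inB W N S₂ a ⊆ W₀) :
    #(outB W N S₁ a) + #(inB W N S₂ a) ≤ #W₀ + 1 := by
  have h3 : outB W N S₁ a ∩ inB W N S₂ a ⊆ {a} := by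
    intro b hb
    obtain ⟨hb1, hb2⟩ := mem_inter.1 hb
    rcases (mem_inB.1 hb2).2 with rfl | hr
    · simp
    · rcases (mem_outB.1 hb1).2 with rfl | hr'
      · simp
      · exact absurd ((hr.trans hr' hd.symm).mono (union_subset h2 h1)) (h.acyc b (mem_inB.1 hb2).1)
  have h4 := card_le_card h3
  have h5 := card_le_card hW₀
  have h6 := card_union_add_card_inter (outB W N S₁ a) (inB W N S₂ a)
  rw [card_singleton] at h4
  omega

omit [DecidableEq V] in
theorem ball_union_subset [DecidableEq V] {S₁ S₂ : Finset ι} {a : V} :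
    outB W N S₁ a ∪ inB W N S₂ a ⊆ W :=
  union_subset (fun _ hb => (mem_outB.1 hb).1) fun _ hb => (mem_inB.1 hb).1

open scoped Classical in
/-- the system with a twin of `v` -/
noncomputable def twin (N : ι → V → Finset V) (S : Finset ι) (v : V) (i : ι) (u : Option V) :
    Finset (Option V) :=
  if RE N (S.erase i) v (u.getD v) then (N i (u.getD v)).map Function.Embedding.some
  else {none, some v}

theorem twin_decomp {v : V} {U : Finset ι} {u z : Option V} (h : Reach (twin N S v) U u z) :
    Reach N U (u.getD v) (z.getD v) ∨ ∃ U₁ U₂ : Finset ι, U₁ ⊆ U ∧ U₂ ⊆ U ∧ Disjoint U₁ U₂ ∧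
      ∃ i ∈ U₁, ∃ y, RE N (U₁.erase i) (u.getD v) y ∧ ¬ RE N (S.erase i) v y ∧
        RE N U₂ v (z.getD v) := by
  have key : ∀ {c : ι} {u w : Option V}, w ∈ twin N S v c u →
      w.getD v ∈ N c (u.getD v) ∨ (w.getD v = v ∧ ¬ RE N (S.erase c) v (u.getD v)) := by
    intro c u w hw
    unfold twin at hw
    split_ifs at hw with hc
    · obtain ⟨a, ha, rfl⟩ := mem_map.1 hw
      exact .inl ha
    · refine .inr ⟨?_, hc⟩
      rcases mem_insert.1 hw with rfl | hw
      · rfl
      · rw [mem_singleton.1 hw]; rfl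
  induction h with
  | @one T c u w hc hw =>
    rcases key hw with hw | ⟨hw, hn⟩
    · exact .inl (.one hc hw)
    · exact .inr ⟨{c}, ∅, by simpa, by simp, by simp, c, by simp, _, .inl rfl, hn, .inl hw.symm⟩
  | @cons T c u w z hc hw _ ih =>
    rcases key hw with hw | ⟨hw, hn⟩
    · rcases ih with ih | ⟨U₁, U₂, h1, h2, hd, i, hi, y, hy, hn, he⟩
      · exact .inl (.cons hc hw ih)
      · have hc1 : c ∉ U₁ := fun hc2 => by simpa using h1 hc2
        refine .inr ⟨insert c U₁, U₂, insert_subset hc (h1.trans (erase_subset _ _)),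
          h2.trans (erase_subset _ _), ?_, i, mem_insert_of_mem hi, y, .inr ?_, hn, he⟩
        · rw [disjoint_insert_left]
          exact ⟨fun hc2 => by simpa using h2 hc2, hd⟩
        · refine ((Reach.one (mem_singleton_self c) hw).transE hy ?_).mono fun x hx => ?_
          · rw [disjoint_singleton_left]
            exact fun hh => hc1 (mem_erase.1 hh).2
          · rcases mem_union.1 hx with hx | hx
            · rw [mem_singleton.1 hx]
              exact mem_erase.2 ⟨fun hh => hc1 (hh ▸ hi), mem_insert_self _ _⟩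
            · exact mem_erase.2 ⟨(mem_erase.1 hx).1, mem_insert_of_mem (mem_erase.1 hx).2⟩
    · rcases ih with ih | ⟨U₁, U₂, h1, h2, hd, i, hi, y, hy, hn', he⟩
      · exact .inr ⟨{c}, T.erase c, by simpa, erase_subset _ _, by simp, c, by simp, _, .inl rfl,
          hn, .inr (by rwa [hw] at ih)⟩
      · refine .inr ⟨{c}, U₂, by simpa, h2.trans (erase_subset _ _), ?_, c, by simp, _, .inl rfl,
          hn, he⟩
        rw [disjoint_singleton_left]
        exact fun hc2 => by simpa using h2 hc2

theorem Sys.twin_sys (h : Sys W S N r) (hr : ∀ i ∈ S, r i ≤ 2) {v : V} (hv : v ∈ W) :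
    Sys (insertNone (outB W N S v)) S (twin N S v) r := by
  have hvY : v ∈ outB W N S v := mem_outB.2 ⟨hv, .inl rfl⟩
  have hb : ∀ u ∈ insertNone (outB W N S v), u.getD v ∈ W := by
    rintro (_ | u) hu
    · exact hv
    · exact (mem_outB.1 (some_mem_insertNone.1 hu)).1
  refine ⟨fun c hc u hu w hw => ?_, fun c hc u hu => ?_, fun u hu hre => ?_⟩
  · unfold twin at hw
    split_ifs at hw with hk
    · obtain ⟨a, ha, rfl⟩ := mem_map.1 hw
      refine some_mem_insertNone.2 (mem_outB.2 ⟨h.closed c hc _ (hb u hu) ha, .inr ?_⟩)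
      have := hk.snoc (notMem_erase c S) ha
      rwa [insert_erase hc] at this
    · rcases mem_insert.1 hw with rfl | hw
      · exact none_mem_insertNone
      · rw [mem_singleton.1 hw]; exact some_mem_insertNone.2 hvY
  · unfold twin
    split_ifs with hk
    · rw [card_map]; exact h.deg c hc _ (hb u hu)
    · rw [card_pair (by simp)]; exact hr c hc
  · rcases twin_decomp hre with hre | ⟨U₁, U₂, h1, h2, hd, i, hi, y, hy, hn, he⟩
    · exact h.acyc _ (hb u hu) hre
    · refine hn ((he.transE hy (hd.symm.mono_right (erase_subset _ _))).mono ?_)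
      refine union_subset (fun x hx => mem_erase.2 ⟨?_, h2 hx⟩) (erase_subset_erase _ h1)
      rintro rfl
      exact disjoint_left.1 hd hi hx

end

theorem Sys.local_bound (hr : ∀ i ∈ S, r i ≤ 2) {V : Type} [DecidableEq V]
    {N : ι → V → Finset V} {W : Finset V} (h : Sys W S N r) {v : V} (hv : v ∈ W) :
    ∑ i ∈ S, r i + 1 ≤ #(outB W N S v) := by
  induction S using Finset.strongInduction generalizing V with
  | H S ih =>
  have hvY : v ∈ outB W N S v := mem_outB.2 ⟨hv, .inl rfl⟩
  rcases S.eq_empty_or_nonempty with rfl | ⟨c, hc⟩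
  · simpa using card_pos.2 ⟨v, hvY⟩
  by_cases hS : S = {c}
  · subst hS
    simpa using h.card_outB_single hc hv
  have ht := h.twin_sys hr hv
  set W' := insertNone (outB W N S v) with hW'
  have hcard : #W' = #(outB W N S v) + 1 := card_insertNone _
  have hlt : ∑ a ∈ W', (#(outB W' (twin N S v) {c} a) + #(inB W' (twin N S v) (S.erase c) a)) <
      ∑ a ∈ W', (#W' + 1) := by
    refine sum_lt_sum (fun a _ => ht.two_ball (by simpa) (erase_subset _ _) (by simp)
      ball_union_subset) ⟨some v, some_mem_insertNone.2 hvY, ?_⟩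
    have := ht.two_ball (S₁ := {c}) (S₂ := S.erase c) (a := some v) (W₀ := W'.erase none)
      (by simpa) (erase_subset _ _) (by simp) (by
        intro b hb
        refine mem_erase.2 ⟨?_, ball_union_subset hb⟩
        rintro rfl
        rcases mem_union.1 hb with hb | hb
        · rcases (mem_outB.1 hb).2 with hb | hb
          · simp at hb
          · exact ht.acyc none none_mem_insertNone
              ((hb.congr_start (u' := none) fun _ => rfl).mono (by simpa))
        · rcases (mem_inB.1 hb).2 with hb | hb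
          · simp at hb
          · exact ht.acyc (some v) (some_mem_insertNone.2 hvY)
              ((hb.congr_start (u' := some v) fun _ => rfl).mono (erase_subset _ _)))
    have h0 : none ∈ W' := none_mem_insertNone
    rw [card_erase_of_mem h0] at this
    omega
  rw [sum_add_distrib, sum_inB, ← sum_add_distrib] at hlt
  have hge : ∑ a ∈ W', (∑ i ∈ S, r i + 2) ≤ ∑ a ∈ W', (#(outB W' (twin N S v) {c} a) +
      #(outB W' (twin N S v) (S.erase c) a)) := by
    refine sum_le_sum fun a ha => ?_
    have h1 := ht.card_outB_single hc ha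
    have h2 := ih (S.erase c) (erase_ssubset hc) (fun i hi => hr i (mem_erase.1 hi).2)
      (ht.mono (erase_subset _ _)) ha
    have h3 := add_sum_erase S r hc
    omega
  have := hge.trans_lt hlt
  rw [sum_const, sum_const, smul_eq_mul, smul_eq_mul] at this
  have := lt_of_mul_lt_mul_left this (Nat.zero_le _)
  omega

theorem Sys.small {V : Type} [DecidableEq V] {N : ι → V → Finset V} {W : Finset V}
    (h : Sys W S N r) (hW : W.Nonempty) {c : ι} (hc : c ∈ S) (hr : ∀ i ∈ S, i ≠ c → r i ≤ 2) :
    ∑ i ∈ S, r i < #W := by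
  have hle : ∑ a ∈ W, (#(outB W N {c} a) + #(inB W N (S.erase c) a)) ≤ ∑ a ∈ W, (#W + 1) :=
    sum_le_sum fun a _ => h.two_ball (by simpa) (erase_subset _ _) (by simp) ball_union_subset
  rw [sum_add_distrib, sum_inB, ← sum_add_distrib] at hle
  have hge : ∑ a ∈ W, (∑ i ∈ S, r i + 2) ≤ ∑ a ∈ W, (#(outB W N {c} a) +
      #(outB W N (S.erase c) a)) := by
    refine sum_le_sum fun a ha => ?_
    have h1 := h.card_outB_single hc ha
    have h2 := (h.mono (erase_subset c S)).local_bound
      (fun i hi => hr i (mem_erase.1 hi).2 (mem_erase.1 hi).1) ha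
    have h3 := add_sum_erase S r hc
    omega
  have := hge.trans hle
  rw [sum_const, sum_const, smul_eq_mul, smul_eq_mul] at this
  have := Nat.le_of_mul_le_mul_left this (card_pos.2 hW)
  omega

end Pool.Agent.P.MP_441ee1_co
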